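import Pool.Agent.Helper48.OD.St

/-!
# Project OD (MP_b3ce06_al), module XP
-/

set_option autoImplicit false

namespace Pool.Agent.Helper6.OD

open Pool.Agent.Helper43.GD Pool.Agent.Helper48.OD

private theorem core {L A : Type} [CommRing L] [Group A] (Q : Fr L A) (v c : Lˣ)
    (hD : D2 L A Q v) (hG : StK2G) (hT : StK2T) (hc : c ∈ Q.U) (ho : Od c) (s₁ s₂ : Lˣ)
    (h1 : K2 Q s₁) (h2 : K2 Q s₂) (o1 : Od s₁) (o2 : Od s₂)
    (i1 : Q.In (1 - ((c * s₁ : Lˣ) : L))) (i2 : Q.In (1 - ((c * s₂ : Lˣ) : L)))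
    (hg : Gn ((s₁ * s₂⁻¹ : Lˣ) : L)) : K2 Q c := by
  obtain ⟨_, _, hmul, hinv, _, _⟩ := hG L A Q v hD
  have hTk : K2 Q (c * s₁) := by
    refine hT.2 L A Q v hD (c * s₁) (s₁ * s₂⁻¹) ⟨Q.U.mul_mem hc h1.1, i1⟩ (ho.mul o1)
      (hmul _ _ h1 (hinv _ h2)) (o1.mul o2.inv) hg ?_
    have e : c * s₁ * (s₁ * s₂⁻¹)⁻¹ = c * s₂ := by
      rw [mul_inv, inv_inv, mul_assoc, mul_inv_cancel_left]
    rw [e]
    exact ⟨Q.U.mul_mem hc h2.1, i2⟩
  have h := hmul _ _ hTk (hinv _ h1)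
  rwa [mul_inv_cancel_right] at h

theorem hXP (hG : StK2G) (hT : StK2T) (hV : StK2V) (hO : StDOD) : StXP := by
  intro L A _ _ Q v a c hD ha hoa hca hoc
  obtain ⟨h1K, hn1K, hmul, hinv, hin, _⟩ := hG L A Q v hD
  have : Finite L := hD.fo.fin
  obtain ⟨v', hv'U, hv'⟩ := hD.fo.gd.2
  obtain ⟨hKv, hKv'⟩ := hV L A Q v v' hD hv'
  have hov : Od v := hD.fo.od
  have hcU : c ∈ Q.U := by
    rw [← in_iff Q, hca]
    exact hin a ha hoa
  have hvU : v ∈ Q.U := hKv.1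
  have e1 : (v : L) * ((v⁻¹ : Lˣ) : L) = 1 := v.mul_inv
  have e2 : (v' : L) * ((v'⁻¹ : Lˣ) : L) = 1 := v'.mul_inv
  have hgv := (gn_iff (v : L)).1 hD.fo.gn
  rcases (hO L A Q v hD).1 v' hv'U with hov' | hov'
  · refine core Q v c hD hG hT hcU hoc v⁻¹ v'⁻¹ (hinv _ hKv) (hinv _ hKv') hov.inv hov'.inv
      ?_ ?_ ?_
    · have e : (1 : L) - ((c * v⁻¹ : Lˣ) : L) =
          ((-(v' * v⁻¹) : Lˣ) : L) * (1 + ((a * v'⁻¹ : Lˣ) : L)) := by
        rw [Units.val_neg, Units.val_mul, Units.val_mul, Units.val_mul, hca]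
        have e3 : (v' : L) * ((v⁻¹ : Lˣ) : L) * ((a : L) * ((v'⁻¹ : Lˣ) : L)) =
            ((v⁻¹ : Lˣ) : L) * (a : L) := by
          linear_combination ((v⁻¹ : Lˣ) : L) * (a : L) * e2
        rw [neg_mul, mul_add, e3, mul_one]
        linear_combination (-1 : L) * e1 + ((v⁻¹ : Lˣ) : L) * hv'
      rw [e]
      refine in_mul Q (in_val Q (neg_mem Q (Q.U.mul_mem hv'U (Q.U.inv_mem hvU)))) ?_
      exact hin _ (hmul _ _ ha (hinv _ hKv')) (hoa.mul hov'.inv)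
    · have e : (1 : L) - ((c * v'⁻¹ : Lˣ) : L) =
          ((-(v * v'⁻¹) : Lˣ) : L) * (1 + ((a * v⁻¹ : Lˣ) : L)) := by
        rw [Units.val_neg, Units.val_mul, Units.val_mul, Units.val_mul, hca]
        have e3 : (v : L) * ((v'⁻¹ : Lˣ) : L) * ((a : L) * ((v⁻¹ : Lˣ) : L)) =
            ((v'⁻¹ : Lˣ) : L) * (a : L) := by
          linear_combination ((v'⁻¹ : Lˣ) : L) * (a : L) * e1
        rw [neg_mul, mul_add, e3, mul_one]
        linear_combination (-1 : L) * e2 + ((v'⁻¹ : Lˣ) : L) * hv'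
      rw [e]
      refine in_mul Q (in_val Q (neg_mem Q (Q.U.mul_mem hvU (Q.U.inv_mem hv'U)))) ?_
      exact hin _ (hmul _ _ ha (hinv _ hKv)) (hoa.mul hov.inv)
    · rw [gn_iff]
      intro R hR
      apply hgv
      have e : (1 : L) + ((v⁻¹ * (v'⁻¹)⁻¹ : Lˣ) : L) = ((v⁻¹ : Lˣ) : L) := by
        rw [inv_inv, Units.val_mul]
        linear_combination (-1 : L) * e1 + ((v⁻¹ : Lˣ) : L) * hv'
      have h3 : ((v⁻¹ : Lˣ) : L) ∈ R := by
        rw [← e]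
        exact R.add_mem R.one_mem hR
      have h4 := inv_mem R v⁻¹ h3
      rwa [inv_inv] at h4
  · have hs2K : K2 Q (v * (-v')⁻¹) := by
      have h := hmul _ _ hKv (hinv _ (hmul _ _ hn1K hKv'))
      rwa [neg_one_mul] at h
    have hs2v : ((v * (-v')⁻¹ : Lˣ) : L) = -((v : L) * ((v'⁻¹ : Lˣ) : L)) := by
      rw [Units.val_mul, inv_neg, Units.val_neg, mul_neg]
    refine core Q v c hD hG hT hcU hoc v (v * (-v')⁻¹) hKv hs2K hov (hov.mul hov'.inv) ?_ ?_ ?_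
    · have e : (1 : L) - ((c * v : Lˣ) : L) =
          (v' : L) * (1 + ((a * (v * (-v')⁻¹) : Lˣ) : L)) := by
        rw [Units.val_mul, Units.val_mul a, hs2v, hca]
        linear_combination (-1 : L) * hv' + (a : L) * (v : L) * e2
      rw [e]
      refine in_mul Q (in_val Q hv'U) ?_
      exact hin _ (hmul _ _ ha hs2K) (hoa.mul (hov.mul hov'.inv))
    · have e : (1 : L) - ((c * (v * (-v')⁻¹) : Lˣ) : L) =
          ((v'⁻¹ : Lˣ) : L) * (1 + ((a * v : Lˣ) : L)) := by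
        rw [Units.val_mul, Units.val_mul a, hs2v, hca]
        linear_combination (-1 : L) * e2 + ((v'⁻¹ : Lˣ) : L) * hv'
      rw [e]
      refine in_mul Q (in_val Q (Q.U.inv_mem hv'U)) ?_
      exact hin _ (hmul _ _ ha hKv) (hoa.mul hov)
    · rw [gn_iff]
      intro R hR
      apply hgv
      have e : (v : L) = 1 + ((v * (v * (-v')⁻¹)⁻¹ : Lˣ) : L) := by
        rw [mul_inv, inv_inv, mul_inv_cancel_left, Units.val_neg, hv']
        ring
      rw [e]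
      exact R.add_mem R.one_mem hR

end Pool.Agent.Helper6.OD
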